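import Pool.Agent.Helper50.CT.Goals

/-!
# Packet SJ of project CT (helper50): near points are joined above the level `t`
-/

set_option autoImplicit false

namespace Pool.Agent.Helper22.CT

open Pool.Agent.Helper50.CT

theorem goalSJ : StmtSJ := by
  intro X T _ _ π hG hπ p x y t h
  obtain ⟨c, hc0, hc1, hc⟩ := hG x y
  have hL : 0 ≤ dist x y := dist_nonneg
  have hmem : ∀ s ∈ Set.Icc (0 : ℝ) 1, dist x y * s ∈ Set.Icc 0 (dist x y) := by
    intro s hs
    exact ⟨mul_nonneg hL hs.1, mul_le_of_le_one_right hL hs.2⟩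
  have hd : ∀ s ∈ Set.Icc (0 : ℝ) 1, ∀ s' ∈ Set.Icc (0 : ℝ) 1,
      dist (c (dist x y * s)) (c (dist x y * s')) = dist x y * |s - s'| := by
    intro s hs s' hs'
    rw [hc _ (hmem s hs) _ (hmem s' hs'), ← mul_sub, abs_mul, abs_of_nonneg hL]
  have h0 : (0 : ℝ) ∈ Set.Icc (0 : ℝ) 1 := ⟨le_refl _, zero_le_one⟩
  have h1 : (1 : ℝ) ∈ Set.Icc (0 : ℝ) 1 := ⟨zero_le_one, le_refl _⟩
  have e0 : c (dist x y * 0) = x := by rw [mul_zero, hc0]
  have e1 : c (dist x y * 1) = y := by rw [mul_one, hc1]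
  have hcont : ContinuousOn (fun s : ℝ => c (dist x y * s)) (Set.Icc (0 : ℝ) 1) := by
    rw [Metric.continuousOn_iff]
    intro b hb ε hε
    refine ⟨ε / (dist x y + 1), by positivity, fun a ha hab => ?_⟩
    rw [Real.dist_eq, lt_div_iff₀ (by positivity)] at hab
    rw [hd a ha b hb]
    have : 0 ≤ |a - b| := abs_nonneg _
    nlinarith
  refine JoinedIn.ofLine hcont e0 e1 ?_
  rintro w ⟨s, hs, rfl⟩
  show t < dist (π p) (π (c (dist x y * s)))
  have a1 := hd 0 h0 s hs
  have a2 := hd s hs 1 h1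
  rw [e0] at a1
  rw [e1] at a2
  have b1 := hπ x (c (dist x y * s))
  have b2 := hπ (c (dist x y * s)) y
  have c1 := dist_triangle (π p) (π (c (dist x y * s))) (π x)
  have c2 := dist_triangle (π p) (π (c (dist x y * s))) (π y)
  rw [dist_comm (π (c (dist x y * s))) (π x)] at c1
  have s1 : |0 - s| = s := by rw [zero_sub, abs_neg, abs_of_nonneg hs.1]
  have s2 : |s - 1| = 1 - s := by rw [abs_sub_comm, abs_of_nonneg (by linarith [hs.2])]
  rw [s1] at a1
  rw [s2] at a2
  have a3 : dist x (c (dist x y * s)) + dist (c (dist x y * s)) y = dist x y := by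
    rw [a1, a2]
    ring
  linarith

end Pool.Agent.Helper22.CT
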